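import Pool.Agent.Q151.AT.Main

/-!
# MP_febddb_al: the Addition Theorem for entropy on strongly compactly covered topologically
quasihamiltonian groups
-/

set_option autoImplicit false

namespace Pool.Agent.Results.MP_febddb_al.AdditionTheorem

open Pool.Agent.Q151.AT MeasureTheory

/-- The Addition Theorem holds for every continuous endomorphism `φ` of a Hausdorff strongly
compactly covered topologically quasihamiltonian group `G` and every closed normal subgroup `H`
with `φ(H) ≤ H`: the algebraic entropy of `φ` is the sum of the entropies of the induced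
endomorphism of `G ⧸ H` and of the restriction to `H`; here `μ`, `ν`, `ρ` are arbitrary right Haar
measures of `G`, `G ⧸ H` and `H`. -/
theorem result :
    ∀ (G : Type*) [Group G] [TopologicalSpace G] [IsTopologicalGroup G] [T2Space G],
      Tqh G → StronglyCC G → ∀ φ : G →* G, Continuous φ →
      ∀ (H : Subgroup G) [H.Normal], IsClosed (H : Set G) → ∀ (hH : ∀ x ∈ H, φ x ∈ H)
      (μ : @Measure G (borel G)) (ν : @Measure (G ⧸ H) (borel (G ⧸ H)))
      (ρ : @Measure H (borel H)), IsRightHaar μ → IsRightHaar ν → IsRightHaar ρ →
      halgT φ μ = halgT (quotH φ H hH) ν + halgT (resH φ H hH) ρ := by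
  intro G _ _ _ _ hG hS φ hφ H _ hHc hH μ ν ρ hμ hν hρ
  exact additionT hH (cp_of_tqh hG) hS hφ hHc hμ hν hρ

end Pool.Agent.Results.MP_febddb_al.AdditionTheorem
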